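import Pool.Agent.Helper75.Reducts.Defs

namespace Reducts

/-- a finite partial injection of `ℕ` extends to a permutation -/
theorem exists_perm_of_embeddings {A : Type*} [Finite A] (x y : A ↪ ℕ) :
    ∃ g : Equiv.Perm ℕ, ∀ a, g (x a) = y a := by
  obtain ⟨n, ⟨e⟩⟩ := Finite.exists_equiv_fin A
  have h : MulAction.IsMultiplyPretransitive (Equiv.Perm ℕ) ℕ n :=
    Equiv.Perm.isMultiplyPretransitive ℕ n
  obtain ⟨g, hg⟩ := (MulAction.isMultiplyPretransitive_iff).mp h (e.symm.toEmbedding.trans x)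
    (e.symm.toEmbedding.trans y)
  refine ⟨g, fun a => ?_⟩
  have := congrArg (fun f : Fin n ↪ ℕ => f (e a)) hg
  simpa using this

/-- two finite families with the same kernel and the same trace on `S` are conjugate under the
pointwise stabiliser of `S` -/
theorem exists_perm_fx (S : Finset ℕ) {A : Type*} [Finite A] (u v : A → ℕ)
    (hk : ∀ a b, u a = u b ↔ v a = v b) (hS : ∀ a, ∀ s ∈ S, u a = s ↔ v a = s) :
    ∃ g : Equiv.Perm ℕ, Fx S g ∧ ∀ a, g (u a) = v a := by
  classical
  let D : Set ℕ := Set.range u ∪ (S : Set ℕ)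
  have hD : D.Finite := (Set.finite_range u).union S.finite_toSet
  have : Finite D := hD
  let h : D → ℕ := fun d => if hd : (d : ℕ) ∈ S then (d : ℕ) else
    v (Classical.choose (d.2.resolve_right (fun h => hd (Finset.mem_coe.mp h))))
  have hout : ∀ (d : D) (hd : (d : ℕ) ∉ S), ∃ a, u a = d ∧ h d = v a := fun d hd => by
    refine ⟨Classical.choose (d.2.resolve_right (fun h => hd (Finset.mem_coe.mp h))),
      Classical.choose_spec (d.2.resolve_right (fun h => hd (Finset.mem_coe.mp h))), ?_⟩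
    simp only [h]
    rw [dif_neg hd]
  have hin : ∀ (d : D), (d : ℕ) ∈ S → h d = d := fun d hd => by
    simp only [h]
    rw [dif_pos hd]
  have hinj : Function.Injective h := by
    intro d d' he
    by_cases hd : (d : ℕ) ∈ S <;> by_cases hd' : (d' : ℕ) ∈ S
    · rw [hin d hd, hin d' hd'] at he
      exact Subtype.ext he
    · obtain ⟨a, ha, hva⟩ := hout d' hd'
      rw [hin d hd, hva] at he
      have := (hS a d hd).mpr he.symm
      exact absurd (ha ▸ this ▸ hd) hd'
    · obtain ⟨a, ha, hva⟩ := hout d hd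
      rw [hin d' hd', hva] at he
      have := (hS a d' hd').mpr he
      exact absurd (ha ▸ this ▸ hd') hd
    · obtain ⟨a, ha, hva⟩ := hout d hd
      obtain ⟨a', ha', hva'⟩ := hout d' hd'
      rw [hva, hva'] at he
      have := (hk a a').mpr he
      exact Subtype.ext (ha.symm.trans (this.trans ha'))
  obtain ⟨g, hg⟩ := exists_perm_of_embeddings (⟨Subtype.val, Subtype.val_injective⟩ : D ↪ ℕ)
    ⟨h, hinj⟩
  refine ⟨g, fun s hs => ?_, fun a => ?_⟩
  · have h1 := hg ⟨s, Or.inr (Finset.mem_coe.mpr hs)⟩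
    simp only [Function.Embedding.coeFn_mk] at h1
    rw [h1]
    exact hin _ hs
  · have h1 := hg ⟨u a, Or.inl ⟨a, rfl⟩⟩
    simp only [Function.Embedding.coeFn_mk] at h1
    rw [h1]
    by_cases hs : u a ∈ S
    · rw [hin _ hs]
      exact ((hS a (u a) hs).mp rfl).symm
    · obtain ⟨a', ha', hva⟩ := hout ⟨u a, Or.inl ⟨a, rfl⟩⟩ hs
      rw [hva]
      exact (hk a' a).mp ha'

/-- J3 -/
theorem finite_orbits {B : Type*} [MulAction (Equiv.Perm ℕ) B] (hfs : FinSupp B) (hof : OrbFin B)
    (S : Finset ℕ) {ι : Type*} [Finite ι] : ∃ F : Set (ι → B), F.Finite ∧ ∀ b : ι → B, ∃ g : Equiv.Perm ℕ,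
      Fx S g ∧ ∃ f ∈ F, b = fun i => g • f i := by
  classical
  obtain ⟨F0, hF0⟩ := hof
  choose γ φ hφ hb using hF0
  choose supp hsupp using hfs
  let T : Finset ℕ := F0.biUnion supp
  -- equality on `T` is enough
  have hagree : ∀ (g g' : Equiv.Perm ℕ) (f : B), f ∈ F0 → (∀ t ∈ T, g t = g' t) → g • f = g' • f := by
    intro g g' f hf hT
    have h1 : Fx (supp f) (g⁻¹ * g') := fun i hi => by
      rw [Equiv.Perm.mul_apply, ← hT i (Finset.mem_biUnion.mpr ⟨f, hf, hi⟩)]
      simp
    have h2 := hsupp f _ h1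
    rw [mul_smul, inv_smul_eq_iff] at h2
    exact h2.symm
  let colour : (ι → B) → (ι → F0) × ((ι × T) → (ι × T) → Prop) × ((ι × T) → S → Prop) :=
    fun b => (fun i => ⟨φ (b i), hφ (b i)⟩,
      fun x y => γ (b x.1) x.2 = γ (b y.1) y.2, fun x s => γ (b x.1) x.2 = s)
  have : Finite ((ι → F0) × ((ι × T) → (ι × T) → Prop) × ((ι × T) → S → Prop)) := inferInstance
  have : Finite (Set.range colour) := inferInstance
  refine ⟨Set.range (fun x : Set.range colour => Classical.choose x.2), Set.finite_range _,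
    fun b => ?_⟩
  let x : Set.range colour := ⟨colour b, b, rfl⟩
  let f : ι → B := Classical.choose x.2
  have hf : colour f = colour b := Classical.choose_spec x.2
  have h1 : ∀ i, φ (f i) = φ (b i) := fun i => by
    have := congrArg (fun c => (c.1 i : B)) hf
    exact this
  have h2 : ∀ x y : ι × T, γ (f x.1) x.2 = γ (f y.1) y.2 ↔ γ (b x.1) x.2 = γ (b y.1) y.2 :=
    fun x y => by
      have := congrArg (fun c => c.2.1 x y) hf
      simp only [colour] at this
      exact iff_of_eq this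
  have h3 : ∀ x : ι × T, ∀ s ∈ S, γ (f x.1) x.2 = s ↔ γ (b x.1) x.2 = s := fun x s hs => by
    have := congrArg (fun c => c.2.2 x ⟨s, hs⟩) hf
    simp only [colour] at this
    exact iff_of_eq this
  obtain ⟨g, hgS, hg⟩ := exists_perm_fx S (A := ι × T) (fun x => γ (f x.1) x.2)
    (fun x => γ (b x.1) x.2) h2 h3
  refine ⟨g, hgS, f, ⟨x, rfl⟩, funext fun i => ?_⟩
  have h4 : (g * γ (f i)) • φ (f i) = γ (b i) • φ (f i) :=
    hagree _ _ _ (hφ _) fun t ht => hg (i, ⟨t, ht⟩)
  rw [mul_smul, ← hb (f i), h1, ← hb (b i)] at h4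
  exact h4.symm

end Reducts
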